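import Pool.Agent.H.MP_0aa0f2_co.C

set_option autoImplicit false

namespace Pool.Agent.Results.MP_0aa0f2_co.Sixteen

/-- `u` is a cyclic partial word of length `N` (`none` is the wildcard); it is an upcycle for words of
length `n` if every such word is covered by the window at exactly one position. -/
def IsUpcycle {a N : ℕ} (n : ℕ) (u : ZMod N → Option (Fin a)) : Prop :=
  ∀ w : Fin n → Fin a, ∃! i : ZMod N,
    ∀ j : Fin n, u (i + (j.val : ZMod N)) = none ∨ u (i + (j.val : ZMod N)) = some (w j)

open Pool.Agent.H.MP_0aa0f2_co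

def bit (k : ℕ) : Fin 2 := if U.testBit k then 1 else 0

def uu (i : ZMod 32768) : Option (Fin 2) := if i.val % 16 = 15 then none else some (bit i.val)

def F (p : ZMod 32768 × Fin 2) (j : Fin 16) : Fin 2 :=
  if (p.1.val + j.val) % 16 = 15 then p.2 else bit ((p.1.val + j.val) % 32768)

theorem val_add (i : ZMod 32768) (j : Fin 16) :
    (i + (j.val : ZMod 32768)).val = (i.val + j.val) % 32768 := by
  rw [ZMod.val_add, ZMod.val_natCast]; omega

theorem cov_iff (i : ZMod 32768) (w : Fin 16 → Fin 2) :
    (∀ j : Fin 16, uu (i + (j.val : ZMod 32768)) = none ∨ uu (i + (j.val : ZMod 32768)) = some (w j)) ↔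
      ∃ b, F (i, b) = w := by
  constructor
  · intro h
    refine ⟨w ⟨15 - i.val % 16, by omega⟩, funext fun j => ?_⟩
    have hj := h j
    unfold uu at hj
    rw [val_add] at hj
    unfold F
    by_cases hd : (i.val + j.val) % 16 = 15
    · rw [if_pos hd]; refine congrArg w (Fin.ext ?_); have := j.isLt; simp only; omega
    · rw [if_neg hd]
      rw [if_neg (by omega)] at hj
      simpa using hj
  · rintro ⟨b, rfl⟩ j
    unfold uu F
    rw [val_add]
    by_cases hd : (i.val + j.val) % 16 = 15
    · left; rw [if_pos (by omega)]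
    · right; rw [if_neg (by omega), if_neg hd]

theorem F_surj : Function.Surjective F := by
  intro w
  have hlt : Nat.ofBits (fun j : Fin 16 => decide (w j = 1)) < 65536 := Nat.ofBits_lt_two_pow _
  obtain ⟨i, hi, h⟩ := cover _ hlt
  have hv : ((i : ℕ) : ZMod 32768).val = i := by rw [ZMod.val_natCast]; omega
  refine ⟨((i : ZMod 32768), w ⟨15 - i % 16, by omega⟩), funext fun j => ?_⟩
  unfold F
  simp only [hv]
  by_cases hd : (i + j.val) % 16 = 15
  · rw [if_pos hd]; refine congrArg w (Fin.ext ?_); have := j.isLt; simp only; omega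
  · rw [if_neg hd]
    have := h j.val j.isLt hd
    rw [Nat.testBit_ofBits_lt _ _ j.isLt] at this
    unfold bit
    rw [← this]
    have h2 : ∀ x : Fin 2, (if decide (x = 1) = true then (1 : Fin 2) else 0) = x := by decide
    exact h2 _

theorem F_inj : Function.Injective F :=
  ((Fintype.bijective_iff_surjective_and_card F).2 ⟨F_surj, by simp [ZMod.card]⟩).1

theorem result : ∃ u : ZMod 32768 → Option (Fin 2),
    IsUpcycle 16 u ∧ (∃ i, u i = none) ∧ (∃ i, u i ≠ none) := by
  refine ⟨uu, fun w => ?_, ⟨15, by decide +kernel⟩, ⟨0, by decide +kernel⟩⟩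
  obtain ⟨⟨i, b⟩, hib⟩ := F_surj w
  refine ⟨i, (cov_iff i w).2 ⟨b, hib⟩, fun i' hi' => ?_⟩
  obtain ⟨b', hb'⟩ := (cov_iff i' w).1 hi'
  exact congrArg Prod.fst (F_inj (hb'.trans hib.symm))

end Pool.Agent.Results.MP_0aa0f2_co.Sixteen
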